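import Pool.Agent.Work.MP_88b7aa_gt.D.C3_6_6.F0
import Pool.Agent.Work.MP_88b7aa_gt.D.C3_6_6.F1

/-! The class is done. -/

set_option autoImplicit false

namespace Pool.Agent.Work.MP_88b7aa_gt.D.C3_6_6

open Pool.Agent.Work.MP_88b7aa_gt.PQ
open Pool.Agent.Work.MP_88b7aa_gt.Kc

theorem g0 : Good (KS (.ex 3) (.iv 6 0) (.iv 6 0)) H.k ⟨⟨140737488355328, 0, 0, 0, 0, 16⟩, ⟨272047347335168, 0, 0, 9427629375488, 0, 0⟩, ⟨262619717959680, 0, 18855258750976, 0, 0, 0⟩, ⟨93916136210432, 1543630749696, 2375704117248, 956896903168, 0, 0⟩⟩ :=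
  mB_good H_ok M0.k LB.nil

theorem g1 : Good (KS (.ex 3) (.iv 6 0) (.iv 6 0)) H.k ⟨⟨140737488355328, 0, 0, 0, 0, 16⟩, ⟨253192088584192, 0, 0, 9427629375488, 0, 0⟩, ⟨262619717959680, 0, 18855258750976, 0, 0, 0⟩, ⟨90458711654400, 3087261499392, 2375704117248, 956896903168, 0, 0⟩⟩ :=
  mB_good H_ok M1.k LB.nil

theorem g2 : Good (KS (.ex 3) (.iv 6 0) (.iv 6 0)) H.k ⟨⟨140737488355328, 0, 0, 0, 0, 16⟩, ⟨262619717959680, 0, 0, 18855258750976, 0, 0⟩, ⟨262619717959680, 0, 18855258750976, 0, 0, 0⟩, ⟨85241085558784, 3087261499392, 2375704117248, 1913793806336, 0, 0⟩⟩ :=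
  mB_good H_ok M2.k LB.nil

theorem g3 : Good (KS (.ex 3) (.iv 6 0) (.iv 6 0)) H.k ⟨⟨140737488355328, 0, 0, 0, 0, 16⟩, ⟨262619717959680, 0, 0, 18855258750976, 0, 0⟩, ⟨262619717959680, 0, 18855258750976, 0, 0, 0⟩, ⟨75979301060608, 6174522998784, 2375704117248, 1913793806336, 0, 0⟩⟩ :=
  mB_good H_ok M3.k LB.nil

theorem g4 : Good (KS (.ex 3) (.iv 6 0) (.iv 6 0)) H.k ⟨⟨140737488355328, 0, 0, 0, 0, 16⟩, ⟨262619717959680, 0, 0, 18855258750976, 0, 0⟩, ⟨262619717959680, 0, 18855258750976, 0, 0, 0⟩, ⟨69804778061824, 24698091995136, 2375704117248, 1913793806336, 0, 0⟩⟩ :=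
  mB_good H_ok M4.k (LB.cons g3 (LB.cons g2 (LB.cons g1 (LB.cons g0 LB.nil))))

theorem g5 : CGood (KS (.ex 3) (.iv 6 0) (.iv 6 0)) H.k ⟨140737488355328, 0, 0, 0, 0, 16⟩ ⟨262619717959680, 0, 0, 18855258750976, 0, 0⟩ ⟨262619717959680, 0, 18855258750976, 0, 0, 0⟩ ⟨0, 0, 0, 0, 0, 0⟩ :=
  mC_good H_ok M5.k (LB.cons g4 LB.nil) LC.nil

theorem done : Done (KS (.ex 3) (.iv 6 0) (.iv 6 0)) := fin (by decide +kernel) g5

end Pool.Agent.Work.MP_88b7aa_gt.D.C3_6_6
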